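import Pool.Agent.Q35.EOW.Stm
import Pool.Agent.Q280.EO.Mobk

/-!
Project EOW, job MOBKW: the inversion of Moebius for ideals, with weights.
-/

set_option autoImplicit false

namespace Pool.Agent.Q195.EOW

open Filter Topology NumberField IsDedekindDomain Finset
open Pool.Agent.Q35.MM (Pts)
open Pool.Agent.Q35.SM (Vs)
open Pool.Agent.Q35.EO (YU hh)
open Pool.Agent.Q35.EOW (S_MOBKW)
open Pool.Agent.Q280.EO

section Main

variable {K : Type} [Field K] [NumberField K] {ι : Type} [Fintype ι] [DecidableEq ι]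
variable {n : ι → ℕ}

omit [DecidableEq ι] in
theorem set_eq (U : Vs K n → Prop) (r : ι → ℕ) (B : ℝ) (T : Fml K ι) :
    {y ∈ YB U r B | ∀ l, idl (T l) ∣ y.2 l} =
      (fun y : Pts K n × (ι → Ideal (𝓞 K)) => (y.1, fun l => idl (T l) * y.2 l)) ''
        YB U r (B / wt r T) := by
  have hw : 0 < wt r T := lt_of_lt_of_le one_pos (one_le_wt r T)
  have hprod : ∀ y : Pts K n × (ι → Ideal (𝓞 K)),
      ∏ l, hh l (y.1, fun l => idl (T l) * y.2 l) ^ r l = wt r T * ∏ l, hh l y ^ r l := by
    intro y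
    unfold wt hh
    rw [← Finset.prod_mul_distrib]
    refine prod_congr rfl fun l _ => ?_
    simp only [map_mul, Nat.cast_mul]
    rw [← mul_pow]
    ring
  ext y
  constructor
  · rintro ⟨⟨⟨h1, h2⟩, h3⟩, h4⟩
    choose d hd using h4
    refine ⟨(y.1, d), ⟨⟨h1, fun l h => h2 l ?_⟩, ?_⟩, ?_⟩
    · rw [hd l]
      have : d l = ⊥ := h
      rw [this, Ideal.mul_bot]
    · rw [le_div_iff₀ hw, mul_comm, ← hprod]
      have e : (((y.1, d) : Pts K n × (ι → Ideal (𝓞 K))).1, fun l => idl (T l) * ((y.1, d) : Pts K n × (ι → Ideal (𝓞 K))).2 l) = y :=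
        Prod.ext rfl (funext fun l => (hd l).symm)
      rw [e]
      exact h3
    · exact Prod.ext rfl (funext fun l => (hd l).symm)
  · rintro ⟨y, ⟨⟨h1, h2⟩, h3⟩, rfl⟩
    refine ⟨⟨⟨h1, fun l => mul_ne_zero (idl_ne _) (h2 l)⟩, ?_⟩, fun l => dvd_mul_right _ _⟩
    rw [hprod]
    rwa [le_div_iff₀ hw, mul_comm] at h3

/-- the sum of the weights of the pairs of bounded height -/
noncomputable def NW (U : Vs K n → Prop) (w : Pts K n → ℝ) (r : ι → ℕ) (B : ℝ) : ℝ :=
  ∑ᶠ y ∈ YB U r B, w y.1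

theorem countw (U : Vs K n → Prop) (w : Pts K n → ℝ) (r : ι → ℕ) (B : ℝ) (T : Fml K ι) :
    NW U w r (B / wt r T) = ∑ᶠ y ∈ {y ∈ YB U r B | ∀ l, idl (T l) ∣ y.2 l}, w y.1 := by
  unfold NW
  rw [set_eq U r B T, finsum_mem_image]
  intro y _ z _ h
  have h2 := congrArg Prod.fst h
  have h3 := congrArg Prod.snd h
  refine Prod.ext h2 (funext fun l => ?_)
  exact mul_left_cancel₀ (idl_ne (T l)) (congrFun h3 l)

theorem keyw (U : Vs K n → Prop) (w : Pts K n → ℝ) (r : ι → ℕ) (B : ℝ) (hfin : (YB U r B).Finite) :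
    ∑ᶠ x ∈ {x : Pts K n | U (fun i => (x i).rep) ∧ ∏ i, (x i).mulHeight ^ r i ≤ B}, w x =
      ∑' T : Fml K ι, sg T * NW U w r (B / wt r T) := by
  classical
  set Y := hfin.toFinset with hY
  have hYm : ∀ y, y ∈ Y ↔ y ∈ YB U r B := fun y => Set.Finite.mem_toFinset _
  set P : (ι → Ideal (𝓞 K)) → Finset (Fml K ι) :=
    fun 𝔠 => Fintype.piFinset (fun l => (D (𝔠 l)).powerset) with hP
  have hPm : ∀ (𝔠 : ι → Ideal (𝓞 K)), (∀ l, 𝔠 l ≠ ⊥) → ∀ T : Fml K ι,
      T ∈ P 𝔠 ↔ ∀ l, idl (T l) ∣ 𝔠 l := by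
    intro 𝔠 h T
    rw [hP, Fintype.mem_piFinset]
    refine forall_congr' fun l => ?_
    rw [Finset.mem_powerset, idl_dvd_iff]
    exact ⟨fun h1 v hv => (mem_D (h l)).mp (h1 hv), fun h1 v hv => (mem_D (h l)).mpr (h1 v hv)⟩
  have hcard : ∀ T : Fml K ι, NW U w r (B / wt r T) =
      ∑ y ∈ Y, w y.1 * (if T ∈ P y.2 then (1 : ℝ) else 0) := by
    intro T
    rw [countw]
    have e : {y ∈ YB U r B | ∀ l, idl (T l) ∣ y.2 l} =
        ((Y.filter fun y => T ∈ P y.2 : Finset _) : Set (Pts K n × (ι → Ideal (𝓞 K)))) := by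
      ext y
      simp only [Finset.coe_filter, Set.mem_ofPred_eq, hYm]
      constructor
      · rintro ⟨h1, h2⟩
        exact ⟨h1, (hPm y.2 h1.1.2 T).mpr h2⟩
      · rintro ⟨h1, h2⟩
        exact ⟨h1, (hPm y.2 h1.1.2 T).mp h2⟩
    rw [e, finsum_mem_coe_finset, Finset.sum_filter]
    refine sum_congr rfl fun y _ => ?_
    split_ifs
    · rw [mul_one]
    · rw [mul_zero]
  set F := Y.biUnion fun y => P y.2 with hF
  rw [tsum_eq_sum (s := F)]
  · calc ∑ᶠ x ∈ {x : Pts K n | U (fun i => (x i).rep) ∧ ∏ i, (x i).mulHeight ^ r i ≤ B}, w x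
        = ∑ y ∈ Y.filter (fun y => y.2 = 1), w y.1 := by
          have e : ((Y.filter fun y => y.2 = 1 : Finset _) : Set (Pts K n × (ι → Ideal (𝓞 K)))) =
              (fun x : Pts K n => (x, (1 : ι → Ideal (𝓞 K)))) ''
                {x : Pts K n | U (fun i => (x i).rep) ∧ ∏ i, (x i).mulHeight ^ r i ≤ B} := by
            have hone : ∀ x : Pts K n, ∏ l, hh l (x, (1 : ι → Ideal (𝓞 K))) ^ r l =
                ∏ i, (x i).mulHeight ^ r i := by
              intro x
              refine prod_congr rfl fun l _ => ?_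
              unfold hh
              simp
            ext y
            simp only [Finset.coe_filter, Set.mem_ofPred_eq, hYm, Set.mem_image]
            constructor
            · rintro ⟨h1, h2⟩
              refine ⟨y.1, ⟨h1.1.1, ?_⟩, Prod.ext rfl h2.symm⟩
              rw [← hone]
              have h3 := h1.2
              have e2 : (y.1, (1 : ι → Ideal (𝓞 K))) = y := Prod.ext rfl h2.symm
              rwa [e2]
            · rintro ⟨x, ⟨h1, h2⟩, rfl⟩
              exact ⟨⟨⟨h1, fun l => one_ne_zero⟩, by rw [hone]; exact h2⟩, rfl⟩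
          rw [← finsum_mem_coe_finset, e, finsum_mem_image]
          exact fun x _ y _ h => congrArg Prod.fst h
      _ = ∑ y ∈ Y, w y.1 * (if y.2 = 1 then (1 : ℝ) else 0) := by
          rw [Finset.sum_filter]
          refine sum_congr rfl fun y _ => ?_
          split_ifs
          · rw [mul_one]
          · rw [mul_zero]
      _ = ∑ y ∈ Y, w y.1 * ∑ T ∈ P y.2, sg T := by
          refine sum_congr rfl fun y hy => ?_
          congr 1
          exact (sum_sg y.2 ((hYm y).mp hy).1.2).symm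
      _ = ∑ y ∈ Y, ∑ T ∈ F, sg T * (w y.1 * (if T ∈ P y.2 then (1 : ℝ) else 0)) := by
          refine sum_congr rfl fun y hy => ?_
          have hsub : P y.2 ⊆ F := fun T hT => mem_biUnion.mpr ⟨y, hy, hT⟩
          rw [← Finset.sum_subset hsub (f := fun T => sg T * (w y.1 * (if T ∈ P y.2 then (1 : ℝ) else 0))),
            Finset.mul_sum]
          · refine sum_congr rfl fun T hT => ?_
            rw [if_pos hT, mul_one, mul_comm]
          · intro T _ hT
            rw [if_neg hT, mul_zero, mul_zero]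
      _ = ∑ T ∈ F, sg T * NW U w r (B / wt r T) := by
          rw [Finset.sum_comm]
          refine sum_congr rfl fun T _ => ?_
          rw [hcard, Finset.mul_sum]
  · intro T hT
    rw [hcard, Finset.sum_eq_zero, mul_zero]
    intro y hy
    rw [if_neg fun h => hT (mem_biUnion.mpr ⟨y, hy, h⟩), mul_zero]

end Main

theorem mobkw : S_MOBKW := by
  intro K _ _ ι _ _ n r U W R hcard hr hW0 hW1 hfin hlim
  set k := Fintype.card ι - 1 with hk
  set w : Pts K n → ℝ := fun x => W fun i => (x i).rep with hw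
  set N : ℝ → ℝ := fun B => NW U w r B with hN
  have hfin' : ∀ B : ℝ, (YB U r B).Finite := hfin
  have hlim' : Tendsto (fun B : ℝ => N B / (B * Real.log B ^ k)) atTop (𝓝 R) := hlim
  have hfs : ∀ B, N B = ∑ y ∈ (hfin' B).toFinset, w y.1 := by
    intro B
    simp only [hN]
    unfold NW
    rw [finsum_mem_eq_finite_toFinset_sum _ (hfin' B)]
  have hmono : Monotone N := by
    intro B B' h
    rw [hfs, hfs]
    have h2 : YB U r B ⊆ YB U r B' := fun y hy => ⟨hy.1, hy.2.trans h⟩
    refine sum_le_sum_of_subset_of_nonneg (fun y hy => ?_) (fun y _ _ => hW0 _)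
    rw [Set.Finite.mem_toFinset] at hy ⊢
    exact h2 hy
  have h0 : ∀ B, 0 ≤ N B := fun B => by
    rw [hfs]
    exact sum_nonneg fun y _ => hW0 _
  have h1 : ∀ B, B < 1 → N B = 0 := by
    intro B hB
    simp only [hN]
    have e : YB U r B = ∅ := by
      refine Set.eq_empty_of_forall_notMem fun y hy => ?_
      have h2 : 1 ≤ ∏ l, hh l y ^ r l := by
        refine one_le_prod' _ fun l _ => one_le_pow₀ ?_
        unfold hh
        exact one_le_mul_of_one_le_of_one_le (one_le_absNorm (hy.1.2 l)) (y.1 l).one_le_mulHeight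
      linarith [hy.2]
    unfold NW
    rw [e, finsum_mem_empty]
  obtain ⟨C, hC0, hC⟩ := growth hmono h0 h1 hlim'
  refine ⟨∑' T : Fml K ι, sg T * (R * (1 / wt r T)), ?_⟩
  have hmain : Tendsto (fun B : ℝ => ∑' T : Fml K ι, sg T * (N (B / wt r T) / (B * Real.log B ^ k))) atTop
      (𝓝 (∑' T : Fml K ι, sg T * (R * (1 / wt r T)))) := by
    refine tendsto_tsum_of_dominated_convergence (bound := fun T : Fml K ι => C * (1 / wt r T))
      ((summable_wt hr).mul_left C) (fun T => (lim_div (one_le_wt r T) hlim').const_mul _) ?_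
    filter_upwards [eventually_ge_atTop (Real.exp 1)] with B hB
    intro T
    have hBpos : 0 < B := lt_of_lt_of_le (Real.exp_pos 1) hB
    have hlogB : 1 ≤ Real.log B := by
      rw [Real.le_log_iff_exp_le hBpos]
      exact hB
    have hL : 0 < B * Real.log B ^ k := by positivity
    rw [Real.norm_eq_abs, abs_mul, abs_sg, one_mul, abs_of_nonneg (div_nonneg (h0 _) hL.le),
      div_le_iff₀ hL]
    exact hC B (wt r T) hB (one_le_wt r T)
  refine hmain.congr fun B => ?_
  rw [keyw U w r B (hfin' B), ← tsum_div_const]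
  refine tsum_congr fun T => ?_
  simp only [hN, mul_div_assoc]

end Pool.Agent.Q195.EOW
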